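import Pool.Agent.N623.JumpMain

/-!
# Iterated group jumps are not single group jumps

`Pool.Agent.N623.Jump.jump G E` is the `G`-jump of `E`; Borel reducibility, Borel bireducibility and
smoothness are defined in `Pool/Agent/N623/JumpDefs.lean`.

Idea. Let `E` be smooth with at least two classes and let `G`, `H` be infinite. Every `E^[K]` is Borel
reducible to the orbit equivalence relation of the shift of the countable group `K` on `Z^K`. On the
other hand `(E^[G])^[H]` lies above the product of infinitely many copies of the orbit equivalence
relation of the shift of `G` on `{0,1}^G` (the coordinate `1 ∈ H` is used as a marker which destroys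
the shift of `H`), and a Baire category argument shows that a Borel map which is constant up to
countably many values on the classes of this product is, on an open set, insensitive to all but
finitely many coordinates.
-/

namespace Pool.Agent.Results.MP_9b97c3_lc.IteratedJump

open Pool.Agent.N623.Jump

/-- For all infinite countable groups `G`, `H` and every smooth equivalence relation `E` with at least
two classes on a Polish space, the iterated jump `(E^[G])^[H]` is not Borel reducible (in particular not
Borel bireducible) to `E^[K]`, for any countable group `K`. So it is not true that for all countable
groups `G`, `H` and all equivalence relations `E` on Polish spaces there is a countable group `K` such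
that `(E^[G])^[H]` is Borel bireducible with `E^[K]`. -/
theorem result :
    (∀ (G H : Type) [Group G] [Group H] [Countable G] [Countable H] [Infinite G] [Infinite H]
      (X : Type) [TopologicalSpace X] [PolishSpace X] (E : Setoid X),
      Smooth E → (∃ x y : X, ¬ E x y) →
        ∀ (K : Type) [Group K] [Countable K],
          ¬ BorelReducible (jump H (jump G E)) (jump K E)) ∧
    ¬ ∀ (G H : Type) [Group G] [Group H] [Countable G] [Countable H]
      (X : Type) [TopologicalSpace X] [PolishSpace X] (E : Setoid X),
        ∃ (K : Type) (_ : Group K), Countable K ∧
          Bireducible (jump H (jump G E)) (jump K E) := by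
  have main : ∀ (G H : Type) [Group G] [Group H] [Countable G] [Countable H] [Infinite G]
      [Infinite H] (X : Type) [TopologicalSpace X] [PolishSpace X] (E : Setoid X),
      Smooth E → (∃ x y : X, ¬ E x y) →
        ∀ (K : Type) [Group K] [Countable K],
          ¬ BorelReducible (jump H (jump G E)) (jump K E) := by
    intro G H _ _ _ _ _ _ X _ _ E hE h2 K _ _
    exact not_reducible E hE h2
  refine ⟨main, fun h => ?_⟩
  obtain ⟨K, _, _, hK⟩ := h (Multiplicative ℤ) (Multiplicative ℤ) Bool ⊥
  refine main (Multiplicative ℤ) (Multiplicative ℤ) Bool ⊥ ?_ ?_ K hK.1
  · exact ⟨Bool, inferInstance, inferInstance, id, continuous_id.borel_measurable,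
      fun x y => Iff.rfl⟩
  · exact ⟨true, false, fun h => Bool.noConfusion h⟩

end Pool.Agent.Results.MP_9b97c3_lc.IteratedJump
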